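import Pool.Agent.AcylTdc3.R6
import Pool.Agent.AcylTdc2.Count

/-! Counting of rectangles in a direct product with a factor of linear growth. -/

open Filter Topology Set Pool.Agent.TwistedRatio Pool.Agent.AcylTdc Pool.Agent.AcylTdc3

namespace Pool.Agent.AcylTdc4

section R6L
variable {ι : Type*} [Fintype ι] [DecidableEq ι] {H : ι → Type*} [∀ i, Group (H i)]

omit [Fintype ι] [DecidableEq ι] in
private theorem R6_fin {X : Set (∀ i, H i)} (hX : X.Finite) (I : Finset ι) (u : ∀ i, H i) (s : ℕ) :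
    {g : ∀ i, H i | g ∈ ball X s ∧ ∀ i, i ∉ I → g i = u i}.Finite :=
  (ball_finite hX s).subset (fun _ h => h.1)

omit [Fintype ι] [DecidableEq ι] in
private theorem R6_le_ball {X : Set (∀ i, H i)} (hX : X.Finite) (I : Finset ι) (u : ∀ i, H i) (s : ℕ) :
    cnt X I u s ≤ (ball X s).ncard :=
  Set.ncard_le_ncard (fun _ h => h.1) (ball_finite hX s)

omit [Fintype ι] [DecidableEq ι] in
private theorem R6_max {X : Set (∀ i, H i)} (hX : X.Finite) (I : Finset ι) (s : ℕ) :
    ∃ u : ∀ i, H i, ∀ v, cnt X I v s ≤ cnt X I u s := by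
  have hne : (Set.range (fun u : ∀ i, H i => cnt X I u s)).Nonempty := Set.range_nonempty _
  have hbd : BddAbove (Set.range (fun u : ∀ i, H i => cnt X I u s)) := by
    refine ⟨(ball X s).ncard, ?_⟩
    rintro _ ⟨u, rfl⟩
    exact R6_le_ball hX I u s
  obtain ⟨u, hu⟩ := Nat.sSup_mem hne hbd
  refine ⟨u, fun v => ?_⟩
  have h1 : cnt X I v s ≤ sSup (Set.range (fun u : ∀ i, H i => cnt X I u s)) :=
    le_csSup hbd ⟨v, rfl⟩
  rw [← hu] at h1
  exact h1

omit [Fintype ι] [DecidableEq ι] in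
private theorem R6_pow {X : Set (∀ i, H i)} (I : Finset ι) (D : ℕ)
    (hD : ∀ (u : ∀ i, H i) (s : ℕ), 3 * cnt X I u s ≤ cnt X I u (s + D)) (u : ∀ i, H i) (s k : ℕ) :
    3 ^ k * cnt X I u s ≤ cnt X I u (s + D * k) := by
  induction k with
  | zero => simp
  | succ k ih =>
    have h1 := hD u (s + D * k)
    have h2 : s + D * (k + 1) = s + D * k + D := by ring
    rw [h2, pow_succ]
    calc 3 ^ k * 3 * cnt X I u s = 3 * (3 ^ k * cnt X I u s) := by ring
      _ ≤ 3 * cnt X I u (s + D * k) := Nat.mul_le_mul_left 3 ih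
      _ ≤ _ := h1

/-- the rectangle -/
private def Rct (X : Set (∀ i, H i)) (I J : Finset ι) (u v : ∀ i, H i) (s t : ℕ) : Set (∀ i, H i) :=
  (fun p : (∀ i, H i) × (∀ i, H i) => p.1 * p.2) ''
    ({g | g ∈ ball X s ∧ ∀ i, i ∉ I → g i = u i} ×ˢ {g | g ∈ ball X t ∧ ∀ i, i ∉ J → g i = v i})

omit [Fintype ι] [DecidableEq ι] in
private theorem R6_sub (X : Set (∀ i, H i)) (I J : Finset ι) (u v : ∀ i, H i) (s t : ℕ) :
    Rct X I J u v s t ⊆ ball X (s + t) := by
  rintro _ ⟨⟨x, y⟩, ⟨hx, hy⟩, rfl⟩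
  exact ball_mul hx.1 hy.1

omit [Fintype ι] [DecidableEq ι] in
private theorem R6_card {X : Set (∀ i, H i)} {I J : Finset ι} (hIJ : Disjoint I J)
    (u v : ∀ i, H i) (s t : ℕ) :
    (Rct X I J u v s t).ncard = cnt X I u s * cnt X J v t := by
  unfold Rct cnt
  rw [Set.InjOn.ncard_image, Set.ncard_prod]
  rintro ⟨x, y⟩ ⟨hx, hy⟩ ⟨x', y'⟩ ⟨hx', hy'⟩ h
  have h : x * y = x' * y' := h
  have hx2 : ∀ i, i ∉ I → x i = u i := hx.2
  have hy2 : ∀ i, i ∉ J → y i = v i := hy.2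
  have hx2' : ∀ i, i ∉ I → x' i = u i := hx'.2
  have hy2' : ∀ i, i ∉ J → y' i = v i := hy'.2
  have hc : ∀ i, x i * y i = x' i * y' i := fun i => congrFun h i
  have e1 : x = x' := by
    funext i
    by_cases hi : i ∈ I
    · have hj : i ∉ J := fun hj => (Finset.disjoint_left.1 hIJ hi) hj
      have := hc i
      rw [hy2 i hj, hy2' i hj] at this
      exact mul_right_cancel this
    · rw [hx2 i hi, hx2' i hi]
  subst e1
  have e2 : y = y' := mul_left_cancel h
  rw [e2]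

omit [Fintype ι] in
private theorem R6_inter {X : Set (∀ i, H i)} (hX : X.Finite) {I J : Finset ι} (hIJ : Disjoint I J)
    (u v u' v' : ∀ i, H i) (s t s' t' : ℕ) :
    (Rct X I J u v s t ∩ Rct X I J u' v' s' t').ncard ≤ cnt X I u s * cnt X J v' t' := by
  have hfin : ({g | g ∈ ball X s ∧ ∀ i, i ∉ I → g i = u i} ×ˢ
      {g | g ∈ ball X t' ∧ ∀ i, i ∉ J → g i = v' i} : Set ((∀ i, H i) × (∀ i, H i))).Finite :=
    (R6_fin hX I u s).prod (R6_fin hX J v' t')
  have hsub : Rct X I J u v s t ∩ Rct X I J u' v' s' t' ⊆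
      (fun p : (∀ i, H i) × (∀ i, H i) => fun i => if i ∈ I then p.1 i * v i else u' i * p.2 i) ''
      ({g | g ∈ ball X s ∧ ∀ i, i ∉ I → g i = u i} ×ˢ {g | g ∈ ball X t' ∧ ∀ i, i ∉ J → g i = v' i}) := by
    rintro z ⟨⟨⟨x, y⟩, ⟨hx, hy⟩, hz⟩, ⟨⟨x', y'⟩, ⟨hx', hy'⟩, hz'⟩⟩
    have hz : x * y = z := hz
    have hz' : x' * y' = z := hz'
    refine ⟨(x, y'), ⟨hx, hy'⟩, ?_⟩
    funext i
    by_cases hi : i ∈ I
    · have hj : i ∉ J := fun hj => (Finset.disjoint_left.1 hIJ hi) hj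
      simp only [if_pos hi]
      rw [← hy.2 i hj, ← hz]
      rfl
    · simp only [if_neg hi]
      rw [← hx'.2 i hi, ← hz']
      rfl
  calc (Rct X I J u v s t ∩ Rct X I J u' v' s' t').ncard ≤ _ :=
        Set.ncard_le_ncard hsub (hfin.image _)
    _ ≤ _ := Set.ncard_image_le hfin
    _ = cnt X I u s * cnt X J v' t' := by rw [Set.ncard_prod]; rfl

private theorem inter_le {G : Type*} (P : ℕ → Set G) (Q : Set G) (r : ℕ) :
    ((⋃ j ∈ Finset.range r, P j) ∩ Q).ncard ≤ ∑ i ∈ Finset.range r, (P i ∩ Q).ncard := by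
  induction r with
  | zero => simp
  | succ r ih =>
    have hUs : (⋃ j ∈ Finset.range (r + 1), P j) = (⋃ j ∈ Finset.range r, P j) ∪ P r := by
      rw [Finset.range_add_one, Finset.set_biUnion_insert, Set.union_comm]
    rw [hUs, Set.union_inter_distrib_right, Finset.sum_range_succ]
    exact (Set.ncard_union_le _ _).trans (Nat.add_le_add_right ih _)

/-- sets with geometrically small intersections -/
private theorem geo_union {G : Type*} (P : ℕ → Set G) (hP : ∀ j, (P j).Finite) (m : ℕ)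
    (h : ∀ j < m, ∀ i < j, 3 ^ (j - i) * (P i ∩ P j).ncard ≤ (P i).ncard) :
    (1 / 2 : ℝ) * ∑ i ∈ Finset.range m, ((P i).ncard : ℝ) +
      (3 / 2) * ∑ i ∈ Finset.range m, ((P i).ncard : ℝ) / 3 ^ (m - i) ≤
      ((⋃ j ∈ Finset.range m, P j).ncard : ℝ) := by
  classical
  have hU : ∀ r : ℕ, (⋃ j ∈ Finset.range r, P j).Finite := fun r =>
    Set.Finite.biUnion (Finset.finite_toSet _) (fun j _ => hP j)
  induction m with
  | zero => simp
  | succ m ih =>
    have h1 := ih (fun j hj i hi => h j (Nat.lt_succ_of_lt hj) i hi)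
    have hUs : (⋃ j ∈ Finset.range (m + 1), P j) = (⋃ j ∈ Finset.range m, P j) ∪ P m := by
      rw [Finset.range_add_one, Finset.set_biUnion_insert, Set.union_comm]
    have h2 := inter_le P (P m) m
    have h3 := Set.ncard_union_add_ncard_inter (⋃ j ∈ Finset.range m, P j) (P m) (hU m) (hP m)
    have h4 : ((∑ i ∈ Finset.range m, (P i ∩ P m).ncard : ℕ) : ℝ) ≤
        ∑ i ∈ Finset.range m, ((P i).ncard : ℝ) / 3 ^ (m - i) := by
      push_cast
      apply Finset.sum_le_sum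
      intro i hi
      rw [le_div_iff₀ (by positivity), mul_comm]
      exact_mod_cast h m (Nat.lt_succ_self m) i (Finset.mem_range.1 hi)
    have h5 : ∑ i ∈ Finset.range (m + 1), ((P i).ncard : ℝ) / 3 ^ (m + 1 - i) =
        (1 / 3) * (∑ i ∈ Finset.range m, ((P i).ncard : ℝ) / 3 ^ (m - i) + ((P m).ncard : ℝ)) := by
      rw [Finset.sum_range_succ, mul_add, Finset.mul_sum]
      congr 1
      · apply Finset.sum_congr rfl
        intro i hi
        have h6 : m + 1 - i = (m - i) + 1 := by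
          have := Finset.mem_range.1 hi
          omega
        rw [h6, pow_succ]
        field_simp
      · have h7 : m + 1 - m = 1 := by omega
        rw [h7, pow_one]
        ring
    have h3' : (((⋃ j ∈ Finset.range m, P j) ∪ P m).ncard : ℝ) +
        (((⋃ j ∈ Finset.range m, P j) ∩ P m).ncard : ℝ) =
        ((⋃ j ∈ Finset.range m, P j).ncard : ℝ) + ((P m).ncard : ℝ) := by exact_mod_cast h3
    have h2' : (((⋃ j ∈ Finset.range m, P j) ∩ P m).ncard : ℝ) ≤
        ((∑ i ∈ Finset.range m, (P i ∩ P m).ncard : ℕ) : ℝ) := by exact_mod_cast h2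
    rw [hUs, Finset.sum_range_succ, h5]
    linarith

omit [Fintype ι] in
/-- fixing the coordinate `v₀` -/
private theorem fix_coord {X : Set (∀ i, H i)} (hX : X.Finite) (v₀ : ι) (J : Finset ι) (K : ℕ)
    (hK : ∀ s, (ball (Pi.evalMonoidHom H v₀ '' X) s).ncard ≤ K * (s + 1))
    (w : ∀ i, H i) (s : ℕ) (hw : ∀ v, cnt X J v s ≤ cnt X J w s) (v : ∀ i, H i) :
    cnt X (insert v₀ J) v s ≤ K * (s + 1) * cnt X J w s := by
  classical
  have hAfin := R6_fin hX (insert v₀ J) v s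
  set A : Finset (∀ i, H i) := hAfin.toFinset with hA
  have hmemA : ∀ g, g ∈ A ↔ g ∈ ball X s ∧ ∀ i, i ∉ insert v₀ J → g i = v i := fun g => by
    rw [hA, Set.Finite.mem_toFinset]
    exact Iff.rfl
  have hcA : cnt X (insert v₀ J) v s = A.card := by
    unfold cnt
    rw [Set.ncard_eq_toFinset_card _ hAfin]
  have h1 : A.card ≤ cnt X J w s * (A.image (fun g => g v₀)).card := by
    apply Finset.card_le_mul_card_image
    intro a _
    refine le_trans ?_ (hw (Function.update v v₀ a))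
    unfold cnt
    rw [← Set.ncard_coe_finset]
    refine Set.ncard_le_ncard ?_ (R6_fin hX J _ s)
    intro g hg
    rw [Finset.mem_coe, Finset.mem_filter, hmemA] at hg
    refine ⟨hg.1.1, fun i hi => ?_⟩
    by_cases h : i = v₀
    · subst h
      rw [Function.update_self]
      exact hg.2
    · rw [Function.update_of_ne h]
      apply hg.1.2
      rw [Finset.mem_insert]
      rintro (h' | h')
      · exact h h'
      · exact hi h'
  have h2 : (A.image (fun g => g v₀)).card ≤ (ball (Pi.evalMonoidHom H v₀ '' X) s).ncard := by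
    rw [← Set.ncard_coe_finset]
    refine Set.ncard_le_ncard ?_ (ball_finite (hX.image _) s)
    intro a ha
    rw [Finset.mem_coe, Finset.mem_image] at ha
    obtain ⟨g, hg, rfl⟩ := ha
    rw [AcylTdc2.ball_image]
    exact ⟨g, ((hmemA g).1 hg).1, rfl⟩
  rw [hcA]
  calc A.card ≤ cnt X J w s * (A.image (fun g => g v₀)).card := h1
    _ ≤ cnt X J w s * (K * (s + 1)) := Nat.mul_le_mul_left _ (h2.trans (hK s))
    _ = K * (s + 1) * cnt X J w s := by ring

omit [Fintype ι] in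
/-- the sum over the switching times -/
private theorem sum_le {X : Set (∀ i, H i)} (hX : X.Finite) (I J : Finset ι) (hIJ : Disjoint I J)
    (D : ℕ) (hD : ∀ (u : ∀ i, H i) (s : ℕ), 3 * cnt X I u s ≤ cnt X I u (s + D))
    (uI wJ : ℕ → ∀ i, H i) (huI : ∀ s v, cnt X I v s ≤ cnt X I (uI s) s) (n m : ℕ) (hm : m * D ≤ n) :
    ∑ j ∈ Finset.range m, ((cnt X I (uI (n - j * D)) (n - j * D) : ℝ) *
      (cnt X J (wJ (j * D)) (j * D) : ℝ)) ≤ 2 * ((ball X n).ncard : ℝ) := by
  let P : ℕ → Set (∀ i, H i) := fun j =>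
    Rct X I J (uI (n - j * D)) (wJ (j * D)) (n - j * D) (j * D)
  have hPc : ∀ j, (P j).ncard = cnt X I (uI (n - j * D)) (n - j * D) * cnt X J (wJ (j * D)) (j * D) :=
    fun j => R6_card hIJ _ _ _ _
  have hPfin : ∀ j, (P j).Finite := fun j =>
    (ball_finite hX _).subset (R6_sub X I J _ _ _ _)
  have hjn : ∀ j < m, j * D ≤ n := fun j hj => (Nat.mul_le_mul_right _ hj.le).trans hm
  have hPsub : ∀ j < m, P j ⊆ ball X n := by
    intro j hj
    have := R6_sub X I J (uI (n - j * D)) (wJ (j * D)) (n - j * D) (j * D)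
    rwa [Nat.sub_add_cancel (hjn j hj)] at this
  have hint : ∀ j < m, ∀ i < j, 3 ^ (j - i) * (P i ∩ P j).ncard ≤ (P i).ncard := by
    intro j hj i hi
    have e1 := R6_inter hX hIJ (uI (n - j * D)) (wJ (j * D)) (uI (n - i * D)) (wJ (i * D))
      (n - j * D) (j * D) (n - i * D) (i * D)
    have e2 := R6_pow I D hD (uI (n - j * D)) (n - j * D) (j - i)
    have e3 : n - j * D + D * (j - i) = n - i * D := by
      have h1 := hjn j hj
      have h2 : j * D = i * D + D * (j - i) := by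
        obtain ⟨k, rfl⟩ := Nat.exists_eq_add_of_lt hi
        have : i + k + 1 - i = k + 1 := by omega
        rw [this]; ring
      omega
    rw [e3] at e2
    have e4 := huI (n - i * D) (uI (n - j * D))
    rw [Set.inter_comm, hPc i]
    calc 3 ^ (j - i) * (P j ∩ P i).ncard ≤
        3 ^ (j - i) * (cnt X I (uI (n - j * D)) (n - j * D) * cnt X J (wJ (i * D)) (i * D)) :=
          Nat.mul_le_mul_left _ e1
      _ = (3 ^ (j - i) * cnt X I (uI (n - j * D)) (n - j * D)) * cnt X J (wJ (i * D)) (i * D) := by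
          ring
      _ ≤ cnt X I (uI (n - i * D)) (n - i * D) * cnt X J (wJ (i * D)) (i * D) :=
          Nat.mul_le_mul_right _ (e2.trans e4)
  have h1 := geo_union P hPfin m hint
  have h2 : (⋃ j ∈ Finset.range m, P j).ncard ≤ (ball X n).ncard := by
    refine Set.ncard_le_ncard ?_ (ball_finite hX n)
    intro x hx
    simp only [Set.mem_iUnion, Finset.mem_range] at hx
    obtain ⟨j, hj, hx⟩ := hx
    exact hPsub j hj hx
  have h2' : ((⋃ j ∈ Finset.range m, P j).ncard : ℝ) ≤ ((ball X n).ncard : ℝ) := by exact_mod_cast h2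
  have h3 : 0 ≤ ∑ i ∈ Finset.range m, ((P i).ncard : ℝ) / 3 ^ (m - i) :=
    Finset.sum_nonneg (fun _ _ => by positivity)
  have h4 : ∑ j ∈ Finset.range m, ((cnt X I (uI (n - j * D)) (n - j * D) : ℝ) *
      (cnt X J (wJ (j * D)) (j * D) : ℝ)) = ∑ i ∈ Finset.range m, ((P i).ncard : ℝ) := by
    apply Finset.sum_congr rfl
    intro j _
    rw [hPc j]
    push_cast
    rfl
  rw [h4]
  linarith

theorem R6L {X : Set (∀ i, H i)} (hX : X.Finite) (v₀ : ι)
    (I J : Finset ι) (hIJ : Disjoint I J) (hvI : v₀ ∉ I) (hvJ : v₀ ∉ J) (D K : ℕ)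
    (hK : ∀ s, (ball (Pi.evalMonoidHom H v₀ '' X) s).ncard ≤ K * (s + 1))
    (hDI : ∀ (u : ∀ i, H i) (s : ℕ), 3 * cnt X (insert v₀ I) u s ≤ cnt X (insert v₀ I) u (s + D))
    (hDJ : ∀ (u : ∀ i, H i) (s : ℕ), 3 * cnt X (insert v₀ J) u s ≤ cnt X (insert v₀ J) u (s + D))
    {η : ℝ} (hη : 0 < η) :
    ∃ n₀ : ℕ, ∀ n ≥ n₀,
      (∀ s ≤ n, ∃ u u' : ∀ i, H i,
        η * ((ball X n).ncard : ℝ) ≤ (cnt X (insert v₀ I) u s : ℝ) * (cnt X (insert v₀ I) u' (n - s) : ℝ)) →
      (∀ s ≤ n, ∃ v v' : ∀ i, H i,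
        η * ((ball X n).ncard : ℝ) ≤ (cnt X (insert v₀ J) v s : ℝ) * (cnt X (insert v₀ J) v' (n - s) : ℝ)) →
      False := by
  classical
  have hd1 : Disjoint (insert v₀ I) J := by
    rw [Finset.disjoint_insert_left]
    exact ⟨hvJ, hIJ⟩
  have hd2 : Disjoint (insert v₀ J) I := by
    rw [Finset.disjoint_insert_left]
    exact ⟨hvI, hIJ.symm⟩
  have hK1 : 1 ≤ K := by
    have h1 := hK 0
    have h2 := ncard_ball_pos (hX.image (Pi.evalMonoidHom H v₀)) 0
    rw [Nat.zero_add, Nat.mul_one] at h1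
    omega
  have hKR : (1 : ℝ) ≤ K := by exact_mod_cast hK1
  obtain ⟨m, hm⟩ := (Real.tendsto_sum_range_one_div_nat_succ_atTop.eventually_gt_atTop
    (2 * K * (D + 1) / η)).exists
  refine ⟨m * D, fun n hn hI hJ => ?_⟩
  choose uI huI using fun s => R6_max hX (insert v₀ I) s
  choose uJ huJ using fun s => R6_max hX (insert v₀ J) s
  choose wI hwI using fun s => R6_max hX I s
  choose wJ hwJ using fun s => R6_max hX J s
  set b := (ball X n).ncard with hb
  have hbpos : 0 < b := ncard_ball_pos hX n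
  have hbR : (0 : ℝ) < (b : ℝ) := by exact_mod_cast hbpos
  have s1 := sum_le hX (insert v₀ I) J hd1 D hDI uI wJ huI n m hn
  have s2 := sum_le hX (insert v₀ J) I hd2 D hDJ uJ wI huJ n m hn
  have hterm : ∀ j < m, 2 * (η * b) / (K * (D + 1)) * (1 / ((j : ℝ) + 1)) ≤
      (cnt X (insert v₀ I) (uI (n - j * D)) (n - j * D) : ℝ) * (cnt X J (wJ (j * D)) (j * D) : ℝ) +
      (cnt X (insert v₀ J) (uJ (n - j * D)) (n - j * D) : ℝ) * (cnt X I (wI (j * D)) (j * D) : ℝ) := by
    intro j hj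
    have hjn : j * D ≤ n := (Nat.mul_le_mul_right _ hj.le).trans hn
    obtain ⟨u, u', h1⟩ := hI (j * D) hjn
    obtain ⟨v, v', h2⟩ := hJ (j * D) hjn
    have a1 : (cnt X (insert v₀ I) u (j * D) : ℝ) ≤
        (K * ((j * D : ℕ) + 1 : ℝ)) * cnt X I (wI (j * D)) (j * D) := by
      exact_mod_cast fix_coord hX v₀ I K hK (wI (j * D)) (j * D) (hwI (j * D)) u
    have a2 : (cnt X (insert v₀ J) v (j * D) : ℝ) ≤
        (K * ((j * D : ℕ) + 1 : ℝ)) * cnt X J (wJ (j * D)) (j * D) := by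
      exact_mod_cast fix_coord hX v₀ J K hK (wJ (j * D)) (j * D) (hwJ (j * D)) v
    have a3 : (cnt X (insert v₀ I) u' (n - j * D) : ℝ) ≤
        cnt X (insert v₀ I) (uI (n - j * D)) (n - j * D) := by exact_mod_cast huI _ u'
    have a4 : (cnt X (insert v₀ J) v' (n - j * D) : ℝ) ≤
        cnt X (insert v₀ J) (uJ (n - j * D)) (n - j * D) := by exact_mod_cast huJ _ v'
    set q : ℝ := K * ((j * D : ℕ) + 1 : ℝ) with hq
    have hq0 : 0 < q := by positivity
    set x1 : ℝ := ((cnt X I (wI (j * D)) (j * D) : ℕ) : ℝ) with hx1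
    set x2 : ℝ := ((cnt X J (wJ (j * D)) (j * D) : ℕ) : ℝ) with hx2
    set y1 : ℝ := ((cnt X (insert v₀ I) (uI (n - j * D)) (n - j * D) : ℕ) : ℝ) with hy1
    set y2 : ℝ := ((cnt X (insert v₀ J) (uJ (n - j * D)) (n - j * D) : ℕ) : ℝ) with hy2
    have x10 : 0 ≤ x1 := Nat.cast_nonneg _
    have x20 : 0 ≤ x2 := Nat.cast_nonneg _
    have y10 : 0 ≤ y1 := Nat.cast_nonneg _
    have y20 : 0 ≤ y2 := Nat.cast_nonneg _
    have b1 : η * b ≤ (q * x1) * y1 := h1.trans (mul_le_mul a1 a3 (Nat.cast_nonneg _) (by positivity))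
    have b2 : η * b ≤ (q * x2) * y2 := h2.trans (mul_le_mul a2 a4 (Nat.cast_nonneg _) (by positivity))
    have hηb : 0 < η * (b : ℝ) := mul_pos hη hbR
    have b3 : (η * b) * (η * b) ≤ ((q * x1) * y1) * ((q * x2) * y2) :=
      mul_le_mul b1 b2 hηb.le (by positivity)
    have b4 : 2 * (η * b) ≤ q * (y1 * x2 + y2 * x1) := by
      have b5 : (2 * (η * b)) ^ 2 ≤ (q * (y1 * x2 + y2 * x1)) ^ 2 := by
        nlinarith [sq_nonneg (q * (y1 * x2) - q * (y2 * x1))]
      exact (pow_le_pow_iff_left₀ (by positivity) (by positivity) two_ne_zero).1 b5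
    have b6 : q ≤ K * (D + 1) * ((j : ℝ) + 1) := by
      rw [hq]
      push_cast
      have : (0 : ℝ) ≤ K := by linarith
      have hj0 : (0 : ℝ) ≤ j := Nat.cast_nonneg _
      have hD0 : (0 : ℝ) ≤ D := Nat.cast_nonneg _
      nlinarith [mul_nonneg this hj0, mul_nonneg this hD0, mul_nonneg hj0 hD0]
    have b7 : 2 * (η * b) ≤ (K * (D + 1) * ((j : ℝ) + 1)) * (y1 * x2 + y2 * x1) :=
      b4.trans (mul_le_mul_of_nonneg_right b6 (by positivity))
    have b8 : 2 * (η * b) / (K * (D + 1)) * (1 / ((j : ℝ) + 1)) =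
        2 * (η * b) / (K * (D + 1) * ((j : ℝ) + 1)) := by
      field_simp
    rw [b8, div_le_iff₀ (by positivity)]
    linarith
  have hsum : 2 * (η * b) / (K * (D + 1)) * ∑ j ∈ Finset.range m, (1 / ((j : ℝ) + 1)) ≤ 4 * b := by
    rw [Finset.mul_sum]
    calc _ ≤ ∑ j ∈ Finset.range m,
        ((cnt X (insert v₀ I) (uI (n - j * D)) (n - j * D) : ℝ) * (cnt X J (wJ (j * D)) (j * D) : ℝ) +
        (cnt X (insert v₀ J) (uJ (n - j * D)) (n - j * D) : ℝ) * (cnt X I (wI (j * D)) (j * D) : ℝ)) :=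
          Finset.sum_le_sum (fun j hj => hterm j (Finset.mem_range.1 hj))
      _ ≤ 4 * b := by
          rw [Finset.sum_add_distrib]
          linarith
  have hpos : 0 < 2 * (η * b) / (K * (D + 1)) := by positivity
  have h5 := mul_lt_mul_of_pos_left hm hpos
  have h6 : 2 * (η * b) / (K * (D + 1)) * (2 * K * (D + 1) / η) = 4 * b := by
    field_simp
    ring
  rw [h6] at h5
  linarith

end R6L

end Pool.Agent.AcylTdc4
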