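import Pool.Agent.AcylTdc3.Fin
import Pool.Agent.AcylTdc4.R6L
import Pool.Agent.AcylTdc.Main

/-! Combinatorial assembly for direct products with a factor of subexponential growth. -/

open Filter Topology Set Pool.Agent.TwistedRatio Pool.Agent.AcylTdc Pool.Agent.AcylTdc2 Pool.Agent.AcylTdc3

namespace Pool.Agent.AcylTdc4

variable {ι : Type*} [Fintype ι] [DecidableEq ι] {H : ι → Type*} [∀ i, Group (H i)]

omit [Fintype ι] [DecidableEq ι] in
private theorem cnt_mono {X : Set (∀ i, H i)} (hX : X.Finite) (I : Finset ι) (u : ∀ i, H i)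
    {s t : ℕ} (h : s ≤ t) : cnt X I u s ≤ cnt X I u t :=
  Set.ncard_le_ncard (fun _ hg => ⟨ball_mono h hg.1, hg.2⟩)
    ((ball_finite hX t).subset fun _ hg => hg.1)

omit [Fintype ι] in
private theorem cnt_single_le {X : Set (∀ i, H i)} (hX : X.Finite) (v₀ : ι) (u : ∀ i, H i) (s : ℕ) :
    cnt X (insert v₀ ∅) u s ≤ (ball (Pi.evalMonoidHom H v₀ '' X) s).ncard := by
  have h1 : cnt X (insert v₀ ∅) u s =
      ((fun g : ∀ i, H i => g v₀) '' {g : ∀ i, H i | g ∈ ball X s ∧ ∀ i, i ∉ (insert v₀ ∅ : Finset ι) → g i = u i}).ncard := by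
    unfold cnt
    rw [Set.InjOn.ncard_image]
    intro g hg g' hg' h
    funext i
    by_cases hi : i = v₀
    · subst hi
      exact h
    · have h2 : i ∉ (insert v₀ ∅ : Finset ι) := by simpa using hi
      rw [hg.2 i h2, hg'.2 i h2]
  rw [h1]
  refine Set.ncard_le_ncard ?_ (ball_finite (hX.image _) s)
  rintro _ ⟨g, hg, rfl⟩
  rw [AcylTdc2.ball_image]
  exact ⟨g, hg.1, rfl⟩

omit [Fintype ι] [DecidableEq ι] in
private theorem cnt_zero_le {X : Set (∀ i, H i)} (I : Finset ι) (u : ∀ i, H i) :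
    cnt X I u 0 ≤ 1 := by
  refine (Set.ncard_le_ncard (t := {1}) ?_ (Set.finite_singleton _)).trans
    (Set.ncard_singleton _).le
  rintro g ⟨⟨l, hl, _, rfl⟩, _⟩
  have : l = [] := List.length_eq_zero_iff.1 (by omega)
  rw [this]
  simp

set_option maxHeartbeats 800000 in
theorem tendsto_of_packsL {X : Set (∀ i, H i)} (hX : X.Finite) (hgen : Subgroup.closure X = ⊤)
    (φ : (∀ i, H i) →* (∀ i, H i)) (v₀ : ι)
    (hPack : ∀ i, i ≠ v₀ → ∃ (F F' : H i) (E : Set (H i)) (N N₀ : ℕ), Pack (H i) F F' E N N₀)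
    (hexp : ∀ i, i ≠ v₀ → ∃ U : Set (H i), U.Finite ∧ ∀ A : Set (∀ i, H i), A.Finite →
      3 * A.ncard ≤ ((fun p : H i × (∀ i, H i) => MonoidHom.mulSingle H i p.1 * p.2) ''
        (U ×ˢ A)).ncard)
    (hgrow : ∃ c : ℕ, 1 ≤ c ∧ ∀ n, 2 ^ n ≤ (ball X (c * n)).ncard)
    (hsub : SubExp fun n => (ball (Pi.evalMonoidHom H v₀ '' X) n).ncard)
    (hlin : (∃ K : ℕ, ∀ n, (ball (Pi.evalMonoidHom H v₀ '' X) n).ncard ≤ K * (n + 1)) ∨
      ∀ i j : ι, i ≠ v₀ → j ≠ v₀ → i = j) :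
    Tendsto (fun n : ℕ =>
      (({p : (∀ i, H i) × (∀ i, H i) | p.1 ∈ ball X n ∧ p.2 ∈ ball X n ∧
        p.1 * p.2 = p.2 * φ p.1}).ncard : ℝ) / ((ball X n).ncard : ℝ) ^ 2) atTop (𝓝 0) := by
  classical
  rw [Metric.tendsto_atTop]
  intro η hη
  have hinf : Tendsto (fun n => (ball X n).ncard) atTop atTop := tendsto_of_growth hgrow hX
  have hPack' : ∀ i, ∃ (F F' : H i) (E : Set (H i)) (N N₀ : ℕ), i ≠ v₀ → Pack (H i) F F' E N N₀ := by
    intro i
    by_cases hi : i ≠ v₀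
    · obtain ⟨F, F', E, N, N₀, h⟩ := hPack i hi
      exact ⟨F, F', E, N, N₀, fun _ => h⟩
    · exact ⟨1, 1, ∅, 0, 0, fun h => absurd h hi⟩
  choose F F' E N N₀ P using hPack'
  set c₀ : ℕ := (Finset.univ : Finset (Finset ι × Finset ι)).card with hc₀
  have hc₀pos : 0 < c₀ := Finset.card_pos.2 ⟨(∅, ∅), Finset.mem_univ _⟩
  have hc₀R : (0 : ℝ) < c₀ := by exact_mod_cast hc₀pos
  set η₂ : ℝ := η / (2 * c₀) with hη₂
  have hη₂pos : 0 < η₂ := by positivity
  -- the epsilons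
  obtain ⟨ε, hε⟩ : ∃ ε : ι → ℝ, ∀ i, 0 < ε i ∧
      ε i * (1 + 2 * ((N i : ℝ) + 1) ^ 2) = η₂ ^ (N i + 1) := by
    refine ⟨fun i => η₂ ^ (N i + 1) / (1 + 2 * ((N i : ℝ) + 1) ^ 2), fun i => ?_⟩
    have h0 : (0 : ℝ) < 1 + 2 * ((N i : ℝ) + 1) ^ 2 := by positivity
    exact ⟨div_pos (pow_pos hη₂pos _) h0, div_mul_cancel₀ _ h0.ne'⟩
  have hεpos : ∀ i, 0 < ε i := fun i => (hε i).1
  have hspread : ∀ i, ∃ V₀ : ℕ, i ≠ v₀ → ∀ V ≥ V₀, ∀ n : ℕ, ∀ S_H : Set (H i),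
      Mult (F i) S_H (N₀ i) → Mult (F' i) S_H (N₀ i) →
      ∀ S : Set (∀ i, H i), (∀ g ∈ S, g i ∈ S_H ∧ ∃ l : List (∀ i, H i), l.length ≤ n ∧
        (∀ s ∈ l, s ∈ X ∨ s⁻¹ ∈ X) ∧ l.prod = g ∧ V < (visited (Pi.evalMonoidHom H i) l).ncard) →
      (S.ncard : ℝ) ≤ ε i * (ball X n).ncard := by
    intro i
    by_cases hi : i ≠ v₀
    · obtain ⟨V₀, hV₀⟩ := spread_bound hX hgen i (P i hi) (hεpos i)
      exact ⟨V₀, fun _ => hV₀⟩
    · exact ⟨0, fun h => absurd h hi⟩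
  choose V₀ hV₀ using hspread
  obtain ⟨V, hVle⟩ : ∃ V : ℕ, ∀ i, V₀ i ≤ V :=
    ⟨Finset.univ.sup V₀, fun i => Finset.le_sup (f := V₀) (Finset.mem_univ i)⟩
  obtain ⟨Bf, hBf⟩ : ∃ Bf : ∀ i, Finset (H i), ∀ i,
      ball (Pi.evalMonoidHom H i '' X) V ⊆ ↑(Bf i) :=
    ⟨fun i => (ball_finite (hX.image (Pi.evalMonoidHom H i)) V).toFinset, fun i => by simp⟩
  obtain ⟨C, hC⟩ : ∃ C : ℕ, C = (∏ i, ((Bf i).card + 1)) ^ 2 := ⟨_, rfl⟩
  have hCpos : 0 < C := by
    rw [hC]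
    exact pow_pos (Finset.prod_pos fun i _ => Nat.succ_pos _) 2
  have hCR : (0 : ℝ) < C := by exact_mod_cast hCpos
  have hηC : 0 < η₂ / C := by positivity
  have hinfR : Tendsto (fun n => ((ball X n).ncard : ℝ)) atTop atTop :=
    tendsto_natCast_atTop_atTop.comp hinf
  -- eventual properties
  have e1 : ∀ᶠ n in atTop, ∀ i, 1 ≤ ε i * ((ball X n).ncard : ℝ) := by
    rw [Filter.eventually_all]
    intro i
    filter_upwards [hinfR.eventually_ge_atTop (1 / ε i)] with n hn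
    rw [div_le_iff₀ (hεpos i)] at hn
    linarith
  have e2 : ∀ᶠ n in atTop, ((ball (Pi.evalMonoidHom H v₀ '' X) n).ncard : ℝ) ≤
      η₂ / C * ((ball X n).ncard : ℝ) := by
    obtain ⟨n₀, hn₀⟩ := hsub.negligible hX hgrow hηC
    exact eventually_atTop.2 ⟨n₀, hn₀⟩
  have e3 : ∀ᶠ n in atTop, ∀ q : Finset ι × Finset ι, Disjoint q.1 q.2 → v₀ ∉ q.1 → v₀ ∉ q.2 →
      q.1.Nonempty → q.2.Nonempty →
      (∀ s ≤ n, ∃ u u' : ∀ i, H i,
        η₂ / C * ((ball X n).ncard : ℝ) ≤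
          (cnt X (insert v₀ q.1) u s : ℝ) * (cnt X (insert v₀ q.1) u' (n - s) : ℝ)) →
      (∀ s ≤ n, ∃ v v' : ∀ i, H i,
        η₂ / C * ((ball X n).ncard : ℝ) ≤
          (cnt X (insert v₀ q.2) v s : ℝ) * (cnt X (insert v₀ q.2) v' (n - s) : ℝ)) →
      False := by
    rw [Filter.eventually_all]
    rintro ⟨I, J⟩
    by_cases hd : Disjoint I J ∧ v₀ ∉ I ∧ v₀ ∉ J ∧ I.Nonempty ∧ J.Nonempty
    · obtain ⟨hd, hvI, hvJ, ⟨i, hi⟩, ⟨j, hj⟩⟩ := hd
      have hiv : i ≠ v₀ := fun h => hvI (h ▸ hi)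
      have hjv : j ≠ v₀ := fun h => hvJ (h ▸ hj)
      rcases hlin with ⟨K, hK⟩ | hone
      · obtain ⟨D1, hD1⟩ := cnt_expand hX hgen (hexp i hiv)
        obtain ⟨D2, hD2⟩ := cnt_expand hX hgen (hexp j hjv)
        obtain ⟨n₀, hn₀⟩ := R6L hX v₀ I J hd hvI hvJ (D1 + D2) K hK
          (fun u s => (hD1 (insert v₀ I) (Finset.mem_insert_of_mem hi) u s).trans
            (cnt_mono hX _ u (by omega)))
          (fun u s => (hD2 (insert v₀ J) (Finset.mem_insert_of_mem hj) u s).trans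
            (cnt_mono hX _ u (by omega))) hηC
        filter_upwards [eventually_ge_atTop n₀] with n hn _ _ _ _ _
        exact hn₀ n hn
      · exfalso
        have hij := hone i j hiv hjv
        subst hij
        exact Finset.disjoint_left.1 hd hi hj
    · filter_upwards with n h1 h2 h3 h4 h5
      exact absurd ⟨h1, h2, h3, h4, h5⟩ hd
  obtain ⟨n₀, hn₀⟩ := eventually_atTop.1 (e1.and (e2.and e3))
  refine ⟨n₀, fun n hn => ?_⟩
  obtain ⟨f1, f2, f3⟩ := hn₀ n hn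
  obtain ⟨w, hw⟩ := exists_word X n
  set b : ℝ := ((ball X n).ncard : ℝ) with hb
  have hb0 : 0 < b := by rw [hb]; exact_mod_cast ncard_ball_pos hX n
  set T : (∀ i, H i) → Finset ι := fun g =>
    Finset.univ.filter fun i => i ≠ v₀ ∧ V < (visited (Pi.evalMonoidHom H i) (w g)).ncard with hT
  have hTmem : ∀ g i, i ∈ T g ↔ i ≠ v₀ ∧ V < (visited (Pi.evalMonoidHom H i) (w g)).ncard :=
    fun g i => by simp [hT]
  set Pr : Finset ι → Finset ι → Set ((∀ i, H i) × (∀ i, H i)) := fun I J =>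
    {p | p.1 ∈ ball X n ∧ p.2 ∈ ball X n ∧ p.1 ∈ {g | T g = I} ∧ p.2 ∈ {g | T g = J} ∧
      p.1 * p.2 = p.2 * φ p.1} with hPr
  have hball2 : ((ball X n) ×ˢ (ball X n)).Finite := (ball_finite hX n).prod (ball_finite hX n)
  have hPrfin : ∀ I J, (Pr I J).Finite := fun I J => hball2.subset fun p hp => ⟨hp.1, hp.2.1⟩
  -- the part of the ball of given type
  set W : Finset ι → Set (∀ i, H i) := fun I => {g | g ∈ ball X n ∧ T g = I} with hW
  have hWfin : ∀ I, (W I).Finite := fun I => (ball_finite hX n).subset fun g hg => hg.1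
  have hWcut : ∀ I : Finset ι, ∀ s ≤ n, ∃ u u' : ∀ i, H i,
      (W I).ncard ≤ C * (cnt X (insert v₀ I) u s * cnt X (insert v₀ I) u' (n - s)) := by
    intro I s hs
    rw [hC]
    refine R7 hX (insert v₀ I) Bf n s hs (W I) ?_
    rintro g ⟨hg, hgT⟩
    refine ⟨w g, (hw g hg).1, (hw g hg).2.1, (hw g hg).2.2, fun i hi => ?_⟩
    have hle : (visited (Pi.evalMonoidHom H i) (w g)).ncard ≤ V := by
      by_contra hcon
      rw [Finset.mem_insert, not_or] at hi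
      exact hi.2 (hgT ▸ (hTmem g i).2 ⟨hi.1, by omega⟩)
    exact (R4a (X := X) (Pi.evalMonoidHom H i) (hw g hg).2.1 hle).trans (hBf i)
  have hPrle : ∀ I J, (Pr I J).ncard ≤ (W I).ncard * (W J).ncard := by
    intro I J
    rw [← Set.ncard_prod]
    refine Set.ncard_le_ncard ?_ ((hWfin I).prod (hWfin J))
    rintro p ⟨h1, h2, h3, h4, _⟩
    exact ⟨⟨h1, h3⟩, ⟨h2, h4⟩⟩
  have hWle : ∀ I, (W I).ncard ≤ (ball X n).ncard := fun I =>
    Set.ncard_le_ncard (fun g hg => hg.1) (ball_finite hX n)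
  have hWempty : ((W ∅).ncard : ℝ) ≤ η₂ * b := by
    obtain ⟨u, u', h⟩ := hWcut ∅ 0 (Nat.zero_le _)
    have h1 : (W ∅).ncard ≤ C * (ball (Pi.evalMonoidHom H v₀ '' X) n).ncard := by
      refine h.trans ?_
      have h2 := Nat.mul_le_mul (cnt_zero_le (X := X) (insert v₀ ∅) u)
        (cnt_single_le hX v₀ u' (n - 0))
      calc C * (cnt X (insert v₀ ∅) u 0 * cnt X (insert v₀ ∅) u' (n - 0)) ≤
          C * (1 * (ball (Pi.evalMonoidHom H v₀ '' X) (n - 0)).ncard) := Nat.mul_le_mul_left _ h2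
        _ = C * (ball (Pi.evalMonoidHom H v₀ '' X) n).ncard := by rw [Nat.sub_zero, one_mul]
    have h2 : ((W ∅).ncard : ℝ) ≤ C * ((ball (Pi.evalMonoidHom H v₀ '' X) n).ncard : ℝ) := by
      exact_mod_cast h1
    have h3 := mul_le_mul_of_nonneg_left f2 hCR.le
    have h4 : (C : ℝ) * (η₂ / C * b) = η₂ * b := by
      field_simp
    rw [h4] at h3
    exact h2.trans h3
  have key : ∀ I J : Finset ι, ((Pr I J).ncard : ℝ) ≤ η₂ * b ^ 2 := by
    intro I J
    by_cases hv : v₀ ∈ I ∨ v₀ ∈ J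
    · have h0 : Pr I J = ∅ := by
        rw [Set.eq_empty_iff_forall_notMem]
        rintro p ⟨_, _, h3, h4, _⟩
        rcases hv with h | h
        · rw [← show T p.1 = I from h3] at h
          exact ((hTmem _ _).1 h).1 rfl
        · rw [← show T p.2 = J from h4] at h
          exact ((hTmem _ _).1 h).1 rfl
      rw [h0, Set.ncard_empty, Nat.cast_zero]
      positivity
    rw [not_or] at hv
    by_cases hIJ : ∃ i, i ∈ I ∧ i ∈ J
    · obtain ⟨i, hiI, hiJ⟩ := hIJ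
      have hiv : i ≠ v₀ := fun h => hv.1 (h ▸ hiI)
      have h1 := pair_common hX φ i (P i hiv) V n (hεpos i) (f1 i) (hV₀ i hiv V (hVle i) n) w hw
        {g | T g = I} {g | T g = J}
        (fun g hg => ((hTmem g i).1 (by rw [show T g = I from hg]; exact hiI)).2)
        (fun g hg => ((hTmem g i).1 (by rw [show T g = J from hg]; exact hiJ)).2)
      rw [(hε i).2] at h1
      have h3 : (((Pr I J).ncard : ℝ) / b ^ 2) ^ (N i + 1) ≤ η₂ ^ (N i + 1) := h1
      have h4 := (pow_le_pow_iff_left₀ (by positivity) hη₂pos.le (by omega)).1 h3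
      rwa [div_le_iff₀ (by positivity)] at h4
    · have hd : Disjoint I J := by
        rw [Finset.disjoint_left]
        intro i hi hj
        exact hIJ ⟨i, hi, hj⟩
      have hle : ((Pr I J).ncard : ℝ) ≤ ((W I).ncard : ℝ) * ((W J).ncard : ℝ) := by
        exact_mod_cast hPrle I J
      have hWleR : ∀ I, ((W I).ncard : ℝ) ≤ b := fun I => by
        rw [hb]
        exact_mod_cast hWle I
      rcases I.eq_empty_or_nonempty with hI | hI
      · subst hI
        calc ((Pr ∅ J).ncard : ℝ) ≤ ((W ∅).ncard : ℝ) * ((W J).ncard : ℝ) := hle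
          _ ≤ (η₂ * b) * b := mul_le_mul hWempty (hWleR J) (Nat.cast_nonneg _) (by positivity)
          _ = η₂ * b ^ 2 := by ring
      rcases J.eq_empty_or_nonempty with hJ | hJ
      · subst hJ
        calc ((Pr I ∅).ncard : ℝ) ≤ ((W I).ncard : ℝ) * ((W ∅).ncard : ℝ) := hle
          _ ≤ b * (η₂ * b) := mul_le_mul (hWleR I) hWempty (Nat.cast_nonneg _) hb0.le
          _ = η₂ * b ^ 2 := by ring
      · by_contra hcon
        push Not at hcon
        have hbig : ∀ K : Finset ι, (η₂ * b ≤ ((W K).ncard : ℝ)) → ∀ s ≤ n, ∃ u u' : ∀ i, H i,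
            η₂ / C * b ≤ (cnt X (insert v₀ K) u s : ℝ) * (cnt X (insert v₀ K) u' (n - s) : ℝ) := by
          intro K hK s hs
          obtain ⟨u, u', h⟩ := hWcut K s hs
          refine ⟨u, u', ?_⟩
          have h' : ((W K).ncard : ℝ) ≤ C * ((cnt X (insert v₀ K) u s : ℝ) *
              (cnt X (insert v₀ K) u' (n - s) : ℝ)) := by
            exact_mod_cast h
          rw [div_mul_eq_mul_div, div_le_iff₀ hCR]
          linarith
        have hWI : η₂ * b ≤ ((W I).ncard : ℝ) := by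
          by_contra hc
          push Not at hc
          have : ((W I).ncard : ℝ) * ((W J).ncard : ℝ) ≤ (η₂ * b) * b :=
            mul_le_mul hc.le (hWleR J) (Nat.cast_nonneg _) (by positivity)
          have h5 : (η₂ * b) * b = η₂ * b ^ 2 := by ring
          linarith
        have hWJ : η₂ * b ≤ ((W J).ncard : ℝ) := by
          by_contra hc
          push Not at hc
          have : ((W I).ncard : ℝ) * ((W J).ncard : ℝ) ≤ b * (η₂ * b) :=
            mul_le_mul (hWleR I) hc.le (Nat.cast_nonneg _) hb0.le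
          have h5 : b * (η₂ * b) = η₂ * b ^ 2 := by ring
          linarith
        exact f3 (I, J) hd hv.1 hv.2 hI hJ (hbig I hWI) (hbig J hWJ)
  -- sum over the pairs
  have htot : ({p : (∀ i, H i) × (∀ i, H i) | p.1 ∈ ball X n ∧ p.2 ∈ ball X n ∧
      p.1 * p.2 = p.2 * φ p.1}).ncard ≤ ∑ q : Finset ι × Finset ι, (Pr q.1 q.2).ncard := by
    have hsub : {p : (∀ i, H i) × (∀ i, H i) | p.1 ∈ ball X n ∧ p.2 ∈ ball X n ∧
        p.1 * p.2 = p.2 * φ p.1} ⊆
        ↑((Finset.univ : Finset (Finset ι × Finset ι)).biUnion fun q =>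
          (hPrfin q.1 q.2).toFinset) := by
      rintro p ⟨h1, h2, h3⟩
      rw [Finset.mem_coe, Finset.mem_biUnion]
      refine ⟨(T p.1, T p.2), Finset.mem_univ _, ?_⟩
      rw [Set.Finite.mem_toFinset]
      exact ⟨h1, h2, rfl, rfl, h3⟩
    refine (Set.ncard_le_ncard hsub (Finset.finite_toSet _)).trans ?_
    rw [Set.ncard_coe_finset]
    refine Finset.card_biUnion_le.trans (Finset.sum_le_sum fun q _ => ?_)
    rw [Set.ncard_eq_toFinset_card _ (hPrfin q.1 q.2)]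
  have htotR : (({p : (∀ i, H i) × (∀ i, H i) | p.1 ∈ ball X n ∧ p.2 ∈ ball X n ∧
      p.1 * p.2 = p.2 * φ p.1}).ncard : ℝ) ≤ c₀ * (η₂ * b ^ 2) := by
    calc (({p : (∀ i, H i) × (∀ i, H i) | p.1 ∈ ball X n ∧ p.2 ∈ ball X n ∧
        p.1 * p.2 = p.2 * φ p.1}).ncard : ℝ) ≤
        ((∑ q : Finset ι × Finset ι, (Pr q.1 q.2).ncard : ℕ) : ℝ) := by exact_mod_cast htot
      _ = ∑ q : Finset ι × Finset ι, ((Pr q.1 q.2).ncard : ℝ) := by push_cast; rfl
      _ ≤ ∑ _q : Finset ι × Finset ι, η₂ * b ^ 2 := Finset.sum_le_sum fun q _ => key q.1 q.2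
      _ = c₀ * (η₂ * b ^ 2) := by rw [Finset.sum_const, nsmul_eq_mul]
  rw [Real.dist_eq, sub_zero, abs_of_nonneg (by positivity), div_lt_iff₀ (by positivity)]
  have h6 : (c₀ : ℝ) * (η₂ * b ^ 2) = η / 2 * b ^ 2 := by
    rw [hη₂]
    field_simp
  have h7 : 0 < b ^ 2 := by positivity
  nlinarith

end Pool.Agent.AcylTdc4
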