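import Mathlib
import Pool.Agent.TwistedRatio.Defs

open Filter Topology Set Pool.Agent.TwistedRatio

namespace Pool.Agent.AcylTdc4

/-- at most linear growth for some finite generating set -/
def LinGrowth (V : Type*) [Group V] : Prop :=
  ∃ Z : Set V, Z.Finite ∧ Subgroup.closure Z = ⊤ ∧ ∃ K : ℕ, ∀ n, (ball Z n).ncard ≤ K * (n + 1)

theorem lin_ball {V : Type*} [Group V] (hV : LinGrowth V) {T : Set V} (hT : T.Finite) :
    ∃ K : ℕ, ∀ n, (ball T n).ncard ≤ K * (n + 1) := by
  obtain ⟨Z, hZ, hgen, K, hK⟩ := hV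
  have hmem : ∀ g : V, ∃ n, g ∈ ball Z n := by
    intro g
    have hg : g ∈ Subgroup.closure Z := by rw [hgen]; trivial
    induction hg using Subgroup.closure_induction with
    | mem x hx => exact ⟨1, [x], by simp, by simpa using Or.inl hx, by simp⟩
    | one => exact ⟨0, one_mem_ball Z 0⟩
    | mul x y _ _ hx hy =>
      obtain ⟨m, hm⟩ := hx
      obtain ⟨n, hn⟩ := hy
      exact ⟨m + n, ball_mul hm hn⟩
    | inv x _ hx =>
      obtain ⟨m, hm⟩ := hx
      exact ⟨m, ball_inv hm⟩
  choose ℓ hℓ using hmem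
  obtain ⟨c, hc⟩ : ∃ c : ℕ, ∀ t ∈ T, ℓ t ≤ c := by
    obtain ⟨c, hc⟩ := (hT.image ℓ).bddAbove
    exact ⟨c, fun t ht => hc ⟨t, ht, rfl⟩⟩
  have hsubset : ∀ n, ball T n ⊆ ball Z (c * n) := by
    rintro n _ ⟨l, hl, hl', rfl⟩
    have : ∀ l : List V, (∀ s ∈ l, s ∈ T ∨ s⁻¹ ∈ T) → l.prod ∈ ball Z (c * l.length) := by
      intro l
      induction l with
      | nil => intro _; exact one_mem_ball Z _
      | cons a l ih =>
        intro h
        have h1 := ih fun s hs => h s (List.mem_cons_of_mem _ hs)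
        have h2 : a ∈ ball Z c := by
          rcases h a List.mem_cons_self with ha | ha
          · exact ball_mono (hc a ha) (hℓ a)
          · have := ball_inv (ball_mono (hc _ ha) (hℓ a⁻¹))
            simpa using this
        have h3 := ball_mul h2 h1
        rw [List.prod_cons, List.length_cons]
        refine ball_mono (le_of_eq ?_) h3
        ring
    exact ball_mono (Nat.mul_le_mul_left _ hl) (this l hl')
  refine ⟨K * (c + 1), fun n => ?_⟩
  refine (Set.ncard_le_ncard (hsubset n) (ball_finite hZ _)).trans ((hK _).trans ?_)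
  rw [mul_assoc]
  refine Nat.mul_le_mul_left K ?_
  nlinarith [Nat.zero_le c, Nat.zero_le n]

end Pool.Agent.AcylTdc4
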