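import Pool.Agent.AcylTdc3.Final
import Pool.Agent.AcylTdc4.FinL
import Pool.Agent.AcylTdc4.LG

/-! Direct products of acylindrically hyperbolic groups and a group of subexponential growth. -/

open Filter Topology Set Pool.Agent.TwistedRatio Pool.Agent.AcylTdc Pool.Agent.AcylTdc2 Pool.Agent.AcylTdc3

namespace Pool.Agent.AcylTdc4

/-- **Theorem.** The degree of twisted commutativity of a finite direct product of acylindrically
hyperbolic groups (at least one) and a group `V = H v₀` of subexponential growth, of at most linear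
growth if there are at least two acylindrically hyperbolic factors, is zero. -/
theorem tdc_pi_lin.{u, v, w} {ι : Type w} [Finite ι] {H : ι → Type u} [∀ i, Group (H i)] (v₀ : ι)
    (hne : ∃ i, i ≠ v₀) (hH : ∀ i, i ≠ v₀ → AcylHyp.{u, v} (H i)) (hV : SubexpGrowth (H v₀))
    (hlin : (∀ i j : ι, i ≠ v₀ → j ≠ v₀ → i = j) ∨ LinGrowth (H v₀))
    {X : Set (∀ i, H i)} (hX : X.Finite)
    (hgen : Subgroup.closure X = ⊤) (φ : (∀ i, H i) →* (∀ i, H i)) :
    tdc X φ = 0 ∧ Tendsto (fun n : ℕ =>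
      (({p : (∀ i, H i) × (∀ i, H i) | p.1 ∈ ball X n ∧ p.2 ∈ ball X n ∧
        p.1 * p.2 = p.2 * φ p.1}).ncard : ℝ) / ((ball X n).ncard : ℝ) ^ 2) atTop (𝓝 0) := by
  classical
  haveI : Fintype ι := Fintype.ofFinite ι
  have hgen1 : ∀ i, Subgroup.closure (Pi.evalMonoidHom H i '' X) = ⊤ := fun i => by
    rw [← MonoidHom.map_closure, hgen, ← MonoidHom.range_eq_map]
    exact MonoidHom.range_eq_top.2 (Function.surjective_eval i)
  have hX1 : ∀ i, (Pi.evalMonoidHom H i '' X).Finite := fun i => hX.image _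
  have hPack : ∀ i, i ≠ v₀ →
      ∃ (F F' : H i) (E : Set (H i)) (N N₀ : ℕ), Pack (H i) F F' E N N₀ := by
    intro i hi
    obtain ⟨hnvc, Y, i1, i2, hiso, ⟨δ, h⟩, hgeo, hac, hunb⟩ := hH i hi
    obtain ⟨o', _⟩ := id hunb
    haveI : Nonempty Y := ⟨o'⟩
    have hδ := h.nonneg
    obtain ⟨a, b, o, Ca, Cb, B, ha, hb, hab⟩ :=
      exists_pair h hδ hgeo hac hunb hnvc (hX1 i) (hgen1 i)
    exact pack_of h hδ hgeo hac ha hb hab
  have hexp : ∀ i, i ≠ v₀ → ∃ U : Set (H i), U.Finite ∧ ∀ A : Set (∀ i, H i), A.Finite →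
      3 * A.ncard ≤ ((fun p : H i × (∀ i, H i) => MonoidHom.mulSingle H i p.1 * p.2) ''
        (U ×ˢ A)).ncard := by
    intro i hi
    obtain ⟨hnvc, Y, i1, i2, hiso, ⟨δ, h⟩, hgeo, hac, hunb⟩ := hH i hi
    obtain ⟨o', _⟩ := id hunb
    haveI : Nonempty Y := ⟨o'⟩
    have hδ := h.nonneg
    obtain ⟨a, b, o, Ca, Cb, B, ha, hb, hab⟩ :=
      exists_pair h hδ hgeo hac hunb hnvc (hX1 i) (hgen1 i)
    exact R1_expand h hδ ha hb hab (MonoidHom.mulSingle H i) (Pi.evalMonoidHom H i)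
      (fun x => by simp)
  have hgrow : ∃ c : ℕ, 1 ≤ c ∧ ∀ n, 2 ^ n ≤ (ball X (c * n)).ncard := by
    obtain ⟨i, hi⟩ := hne
    obtain ⟨hnvc, Y, i1, i2, hiso, ⟨δ, h⟩, hgeo, hac, hunb⟩ := hH i hi
    obtain ⟨o', _⟩ := id hunb
    haveI : Nonempty Y := ⟨o'⟩
    have hδ := h.nonneg
    obtain ⟨a, b, o, Ca, Cb, B, ha, hb, hab⟩ :=
      exists_pair h hδ hgeo hac hunb hnvc (hX1 i) (hgen1 i)
    obtain ⟨c, hc, hgr⟩ := exp_growth h hδ ha hb hab (hX1 i) (hgen1 i)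
    refine ⟨c, hc, fun n => (hgr n).trans ?_⟩
    rw [AcylTdc2.ball_image]
    exact Set.ncard_image_le (ball_finite hX _)
  have hlin' : (∃ K : ℕ, ∀ n, (ball (Pi.evalMonoidHom H v₀ '' X) n).ncard ≤ K * (n + 1)) ∨
      ∀ i j : ι, i ≠ v₀ → j ≠ v₀ → i = j := by
    rcases hlin with h | h
    · exact Or.inr h
    · exact Or.inl (lin_ball h (hX1 v₀))
  have := tendsto_of_packsL hX hgen φ v₀ hPack hexp hgrow (hV.subExp (hX1 v₀)) hlin'
  exact ⟨this.limsup_eq, this⟩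

end Pool.Agent.AcylTdc4
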